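import Pool.Agent.H673R3.ThreshMain

/-! Answer to Q1 of MP_1f5025_nt: an energy threshold `φ N = (log N) ^ (1 + o(1))`. -/

set_option autoImplicit false

namespace Pool.Agent.Results.MP_1f5025_nt.EnergyThreshold

open Filter Topology Finset Asymptotics MeasureTheory

/-- The distance from `x` to the nearest integer. -/
noncomputable def nrm (x : ℝ) : ℝ := |x - round x|

/-- The sequence `x 1, x 2, …` has Poissonian pair correlations: for every `s > 0`, the number of
pairs `(k, l)` with `1 ≤ k, l ≤ N`, `k ≠ l` and `‖x k - x l‖ < s / N`, divided by `N`, tends to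
`2 s` as `N → ∞`. -/
def HasPPC (x : ℕ → ℝ) : Prop :=
  ∀ s : ℝ, 0 < s →
    Tendsto (fun N : ℕ => (1 / (N : ℝ)) *
      ((((Finset.Icc 1 N) ×ˢ (Finset.Icc 1 N)).filter
        (fun p => p.1 ≠ p.2 ∧ nrm (x p.1 - x p.2) < s / N)).card : ℝ)) atTop (𝓝 (2 * s))

/-- The additive energy of `a 1, …, a N`: the number of quadruples `(i, j, k, l)` of indices
between `1` and `N` with `a i + a j = a k + a l`. -/
def energy (a : ℕ → ℤ) (N : ℕ) : ℕ :=
  (((Finset.Icc 1 N ×ˢ Finset.Icc 1 N) ×ˢ (Finset.Icc 1 N ×ˢ Finset.Icc 1 N)).filter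
    (fun p => a p.1.1 + a p.1.2 = a p.2.1 + a p.2.2)).card

/-- The threshold `φ N = log N * exp (8 * sqrt (log log N * log log log N))`. -/
noncomputable def phi (N : ℕ) : ℝ :=
  Real.log N * Real.exp (8 * Real.sqrt (Real.log (Real.log N) * Real.log (Real.log (Real.log N))))

lemma phi_eq (N : ℕ) : phi N = Pool.Agent.H673R3.thr N := rfl

lemma energy_shift (a : ℕ → ℤ) (N : ℕ) :
    Pool.Agent.H505R5.PC.EnSeq (fun n => a (n + 1)) N = energy a N := by
  unfold Pool.Agent.H505R5.PC.EnSeq energy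
  apply Finset.card_bij (fun p _ => ((p.1.1 + 1, p.1.2 + 1), (p.2.1 + 1, p.2.2 + 1)))
  · intro p hp
    simp only [Finset.mem_filter, Finset.mem_product, Finset.mem_range] at hp
    simp only [Finset.mem_filter, Finset.mem_product, Finset.mem_Icc]
    refine ⟨⟨⟨⟨?_, ?_⟩, ?_, ?_⟩, ⟨?_, ?_⟩, ?_, ?_⟩, hp.2⟩ <;> omega
  · intro p _ q _ h
    simp only [Prod.mk.injEq, Nat.add_right_cancel_iff] at h
    exact Prod.ext (Prod.ext h.1.1 h.1.2) (Prod.ext h.2.1 h.2.2)
  · rintro ⟨⟨i, j⟩, ⟨k, l⟩⟩ hq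
    simp only [Finset.mem_filter, Finset.mem_product, Finset.mem_Icc] at hq
    obtain ⟨i, rfl⟩ := Nat.exists_eq_add_of_le' hq.1.1.1.1
    obtain ⟨j, rfl⟩ := Nat.exists_eq_add_of_le' hq.1.1.2.1
    obtain ⟨k, rfl⟩ := Nat.exists_eq_add_of_le' hq.1.2.1.1
    obtain ⟨l, rfl⟩ := Nat.exists_eq_add_of_le' hq.1.2.2.1
    refine ⟨((i, j), (k, l)), ?_, rfl⟩
    simp only [Finset.mem_filter, Finset.mem_product, Finset.mem_range]
    refine ⟨⟨⟨by omega, by omega⟩, ⟨by omega, by omega⟩⟩, hq.2⟩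

lemma hasPPC_shift (a : ℕ → ℤ) (α : ℝ)
    (h : Pool.Agent.H505R5.PC.PPC (fun n => Int.fract ((a (n + 1) : ℝ) * α))) :
    HasPPC (fun n => Int.fract ((a n : ℝ) * α)) := by
  intro s hs
  refine (h s hs).congr (fun N => ?_)
  congr 2
  apply Finset.card_bij (fun p _ => (p.1 + 1, p.2 + 1))
  · intro p hp
    simp only [Finset.mem_filter, Finset.mem_product, Finset.mem_range] at hp
    simp only [Finset.mem_filter, Finset.mem_product, Finset.mem_Icc]
    exact ⟨⟨⟨by omega, by omega⟩, ⟨by omega, by omega⟩⟩, by omega, hp.2.2⟩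
  · intro p _ q _ h
    simp only [Prod.mk.injEq, Nat.add_right_cancel_iff] at h
    exact Prod.ext h.1 h.2
  · rintro ⟨q1, q2⟩ hq
    simp only [Finset.mem_filter, Finset.mem_product, Finset.mem_Icc] at hq
    obtain ⟨m, rfl⟩ := Nat.exists_eq_add_of_le' hq.1.1.1
    obtain ⟨n, rfl⟩ := Nat.exists_eq_add_of_le' hq.1.2.1
    refine ⟨(m, n), ?_, rfl⟩
    simp only [Finset.mem_filter, Finset.mem_product, Finset.mem_range]
    exact ⟨⟨by omega, by omega⟩, by omega, hq.2.2⟩

lemma phi_atTop : Tendsto phi atTop atTop := by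
  refine tendsto_atTop_mono' atTop ?_ Pool.Agent.H673R3.tendsto_l
  filter_upwards [Pool.Agent.H673R3.tendsto_l.eventually (eventually_ge_atTop 1)] with N hN
  unfold phi
  have h1 : 1 ≤ Real.exp (8 * Real.sqrt (Real.log (Real.log N) *
      Real.log (Real.log (Real.log N)))) := Real.one_le_exp (by positivity)
  nlinarith

lemma phi_small (C : ℝ) (hC : 1 < C) :
    Tendsto (fun N : ℕ => phi N / (Real.log N) ^ C) atTop (𝓝 0) := by
  set c : ℝ := (C - 1) / 16 with hc
  have hc0 : 0 < c := by rw [hc]; linarith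
  have hlogx : ∀ᶠ x : ℝ in atTop, Real.log x ≤ c ^ 2 * x := by
    have h1 := Real.isLittleO_log_id_atTop.bound (show (0 : ℝ) < c ^ 2 by positivity)
    filter_upwards [h1, eventually_ge_atTop 1] with x hx hx1
    have h2 : 0 ≤ Real.log x := Real.log_nonneg hx1
    rw [Real.norm_of_nonneg h2, id, Real.norm_of_nonneg (by linarith)] at hx
    exact hx
  have hlim : Tendsto (fun N : ℕ => Real.exp (-(8 * c * Real.log (Real.log N)))) atTop (𝓝 0) := by
    refine Real.tendsto_exp_neg_atTop_nhds_zero.comp ?_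
    exact Tendsto.const_mul_atTop (by positivity) Pool.Agent.H673R3.tendsto_ll
  refine squeeze_zero' ?_ ?_ hlim
  · filter_upwards [Pool.Agent.H673R3.tendsto_l.eventually (eventually_ge_atTop 1)] with N hN
    unfold phi
    positivity
  · filter_upwards [Pool.Agent.H673R3.tendsto_l.eventually (eventually_ge_atTop 1),
      Pool.Agent.H673R3.tendsto_ll.eventually hlogx,
      Pool.Agent.H673R3.tendsto_ll.eventually (eventually_ge_atTop 1)] with N h1 h2 h3
    unfold phi
    set L := Real.log (N : ℝ) with hL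
    set l := Real.log L with hl
    have hL0 : 0 < L := by linarith
    have hl0 : 0 < l := by linarith
    have hS : Real.sqrt (l * Real.log l) ≤ c * l := by
      rw [Real.sqrt_le_left (by positivity)]
      calc l * Real.log l ≤ l * (c ^ 2 * l) := mul_le_mul_of_nonneg_left h2 hl0.le
        _ = (c * l) ^ 2 := by ring
    rw [Real.rpow_def_of_pos hL0, ← hl]
    have e1 : L = Real.exp l := by rw [hl, Real.exp_log hL0]
    rw [e1, ← Real.exp_add, ← Real.exp_sub]
    apply Real.exp_le_exp.2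
    have e2 : 16 * c = C - 1 := by rw [hc]; ring
    nlinarith

/-- Q1 has a positive answer. Let `φ N = log N * exp (8 * sqrt (log log N * log log log N))`. Then
`φ` tends to infinity, `φ N / (log N) ^ C → 0` for every `C > 1`, and every sequence
`a 1, a 2, …` of distinct integers whose additive energy is `O(N ^ 3 / φ N)` is metric
Poissonian. -/
theorem result :
    Tendsto phi atTop atTop ∧
    (∀ C : ℝ, 1 < C → Tendsto (fun N : ℕ => phi N / (Real.log N) ^ C) atTop (𝓝 0)) ∧
    ∀ a : ℕ → ℤ, Set.InjOn a (Set.Ici 1) →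
      (fun N : ℕ => (energy a N : ℝ)) =O[atTop] (fun N : ℕ => (N : ℝ) ^ 3 / phi N) →
      ∀ᵐ α : ℝ, HasPPC (fun n => Int.fract ((a n : ℝ) * α)) := by
  refine ⟨phi_atTop, phi_small, fun a ha hO => ?_⟩
  have h1 : Function.Injective (fun n : ℕ => a (n + 1)) := by
    intro m n h
    have := ha (Set.mem_Ici.2 (Nat.le_add_left 1 m)) (Set.mem_Ici.2 (Nat.le_add_left 1 n)) h
    omega
  have h2 : (fun N : ℕ => (Pool.Agent.H505R5.PC.EnSeq (fun n => a (n + 1)) N : ℝ)) =O[atTop]
      (fun N : ℕ => (N : ℝ) ^ 3 / Pool.Agent.H673R3.thr N) := by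
    refine (hO.congr_left fun N => ?_)
    rw [energy_shift]
  filter_upwards [Pool.Agent.H673R3.mainQ1 (fun n => a (n + 1)) h1 h2] with α hα
  exact hasPPC_shift a α hα

end Pool.Agent.Results.MP_1f5025_nt.EnergyThreshold
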