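import Pool.Agent.H673R3.EnergyPPC

/-! Answer to Q2 of MP_1f5025_nt: no function tending to infinity is an energy threshold above which
Poissonian pair correlations fail for every real number. -/

set_option autoImplicit false

namespace Pool.Agent.Results.MP_1f5025_nt.NoEnergyThreshold

open Filter Topology Finset

/-- The distance from `x` to the nearest integer. -/
noncomputable def nrm (x : ℝ) : ℝ := |x - round x|

/-- The sequence `x 1, x 2, …` has Poissonian pair correlations: for every `s > 0`, the number of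
pairs `(k, l)` with `1 ≤ k, l ≤ N`, `k ≠ l` and `‖x k - x l‖ < s / N`, divided by `N`, tends to
`2 s` as `N → ∞`. -/
def HasPPC (x : ℕ → ℝ) : Prop :=
  ∀ s : ℝ, 0 < s →
    Tendsto (fun N : ℕ => (1 / (N : ℝ)) *
      ((((Finset.Icc 1 N) ×ˢ (Finset.Icc 1 N)).filter
        (fun p => p.1 ≠ p.2 ∧ nrm (x p.1 - x p.2) < s / N)).card : ℝ)) atTop (𝓝 (2 * s))

/-- The additive energy of `a 1, …, a N`: the number of quadruples `(i, j, k, l)` of indices
between `1` and `N` with `a i + a j = a k + a l`. -/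
def energy (a : ℕ → ℕ) (N : ℕ) : ℕ :=
  (((Finset.Icc 1 N ×ˢ Finset.Icc 1 N) ×ˢ (Finset.Icc 1 N ×ˢ Finset.Icc 1 N)).filter
    (fun p => a p.1.1 + a p.1.2 = a p.2.1 + a p.2.2)).card

/-- shift of the indices by one -/
def shift (a : ℕ → ℕ) (n : ℕ) : ℕ := if n = 0 then 0 else a (n - 1)

lemma shift_succ (a : ℕ → ℕ) (n : ℕ) : shift a (n + 1) = a n := by
  unfold shift
  rw [if_neg (Nat.succ_ne_zero n), Nat.add_sub_cancel]

lemma shift_strictMono (a : ℕ → ℕ) (ha : StrictMono a) (h0 : 0 < a 0) : StrictMono (shift a) := by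
  apply strictMono_nat_of_lt_succ
  intro n
  rw [shift_succ]
  cases n with
  | zero => exact h0
  | succ n =>
    rw [shift_succ]
    exact ha (Nat.lt_succ_self n)

lemma energy_shift (a : ℕ → ℕ) (N : ℕ) : Pool.Agent.H673R3.en a N = energy (shift a) N := by
  unfold Pool.Agent.H673R3.en energy
  apply Finset.card_bij (fun p _ => ((p.1.1 + 1, p.1.2 + 1), (p.2.1 + 1, p.2.2 + 1)))
  · intro p hp
    simp only [Finset.mem_filter, Finset.mem_product, Finset.mem_range] at hp
    simp only [Finset.mem_filter, Finset.mem_product, Finset.mem_Icc, shift_succ]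
    refine ⟨⟨⟨⟨?_, ?_⟩, ?_, ?_⟩, ⟨?_, ?_⟩, ?_, ?_⟩, hp.2⟩ <;> omega
  · intro p _ q _ h
    simp only [Prod.mk.injEq, Nat.add_right_cancel_iff] at h
    exact Prod.ext (Prod.ext h.1.1 h.1.2) (Prod.ext h.2.1 h.2.2)
  · rintro ⟨⟨i, j⟩, ⟨k, l⟩⟩ hq
    simp only [Finset.mem_filter, Finset.mem_product, Finset.mem_Icc] at hq
    obtain ⟨i, rfl⟩ := Nat.exists_eq_add_of_le' hq.1.1.1.1
    obtain ⟨j, rfl⟩ := Nat.exists_eq_add_of_le' hq.1.1.2.1
    obtain ⟨k, rfl⟩ := Nat.exists_eq_add_of_le' hq.1.2.1.1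
    obtain ⟨l, rfl⟩ := Nat.exists_eq_add_of_le' hq.1.2.2.1
    refine ⟨((i, j), (k, l)), ?_, rfl⟩
    simp only [Finset.mem_filter, Finset.mem_product, Finset.mem_range]
    simp only [shift_succ] at hq
    refine ⟨⟨⟨by omega, by omega⟩, ⟨by omega, by omega⟩⟩, hq.2⟩

lemma nrm_fract_sub (u v : ℝ) :
    nrm (Int.fract u - Int.fract v) =
      Pool.Agent.Results.MP_b61c36_nt.PPCCounterexample.nd (u - v) := by
  exact Pool.Agent.Results.MP_b61c36_nt.PPCCounterexample.nd_fract_sub u v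

lemma hasPPC_shift (a : ℕ → ℕ) (α : ℝ)
    (h : Pool.Agent.Results.MP_b61c36_nt.PPCCounterexample.PPC (fun n => (a n : ℝ) * α)) :
    HasPPC (fun n => Int.fract ((shift a n : ℝ) * α)) := by
  intro s hs
  refine (h s hs).congr (fun N => ?_)
  rw [one_div, inv_mul_eq_div]
  congr 2
  unfold Pool.Agent.Results.MP_b61c36_nt.PPCCounterexample.offr
  apply Finset.card_bij (fun p _ => (p.1 + 1, p.2 + 1))
  · intro p hp
    rw [Finset.mem_filter, Finset.mem_offDiag, Finset.mem_range, Finset.mem_range] at hp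
    simp only [Finset.mem_filter, Finset.mem_product, Finset.mem_Icc]
    refine ⟨⟨⟨by omega, by omega⟩, ⟨by omega, by omega⟩⟩, by omega, ?_⟩
    rw [nrm_fract_sub, shift_succ, shift_succ]
    exact hp.2
  · intro p _ q _ h
    simp only [Prod.mk.injEq, Nat.add_right_cancel_iff] at h
    exact Prod.ext h.1 h.2
  · rintro ⟨q1, q2⟩ hq
    simp only [Finset.mem_filter, Finset.mem_product, Finset.mem_Icc] at hq
    obtain ⟨m, rfl⟩ := Nat.exists_eq_add_of_le' hq.1.1.1
    obtain ⟨n, rfl⟩ := Nat.exists_eq_add_of_le' hq.1.2.1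
    refine ⟨(m, n), ?_, rfl⟩
    rw [Finset.mem_filter, Finset.mem_offDiag, Finset.mem_range, Finset.mem_range]
    have h2 := hq.2.2
    rw [nrm_fract_sub, shift_succ, shift_succ] at h2
    exact ⟨⟨by show m < N; omega, by show n < N; omega, by show m ≠ n; omega⟩, h2⟩

/-- Q2 has a negative answer, in a strong form: for every `ψ` tending to infinity and for every
irrational `α` there is a strictly increasing sequence of positive integers `a 1 < a 2 < …` whose
additive energy is at least `N ^ 3 / ψ N` for all large `N` (not only for infinitely many `N`) and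
for which the fractional parts of `a n * α` have Poissonian pair correlations. -/
theorem result (ψ : ℕ → ℝ) (hψ : Tendsto ψ atTop atTop) (α : ℝ) (hα : Irrational α) :
    ∃ a : ℕ → ℕ, StrictMono a ∧ (∀ n, 1 ≤ n → 0 < a n) ∧
      (∃ N₀ : ℕ, ∀ N : ℕ, N₀ ≤ N → (N : ℝ) ^ 3 / ψ N ≤ energy a N) ∧
      HasPPC (fun n => Int.fract ((a n : ℝ) * α)) := by
  obtain ⟨a, h1, h2, ⟨N₀, h3⟩, h4⟩ := Pool.Agent.H673R3.main ψ hψ α hα
  refine ⟨shift a, shift_strictMono a h1 (h2 0), ?_, ⟨N₀, fun N hN => ?_⟩, hasPPC_shift a α h4⟩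
  · intro n hn
    obtain ⟨m, rfl⟩ := Nat.exists_eq_add_of_le' hn
    rw [shift_succ]
    exact h2 m
  · rw [← energy_shift]
    exact h3 N hN

end Pool.Agent.Results.MP_1f5025_nt.NoEnergyThreshold
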